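import Pool.Agent.H211.HY.Stm1
import Pool.Graph.R_seed8.H790R3.RB.TWR

/-!
# Distortion of the derivative near critical points, in the charts
-/

set_option autoImplicit false

open Topology Filter Metric Set MeasureTheory Polynomial

namespace Pool.Agent.H295.HY211

open Pool.Agent.H790R3.RB Pool.Agent.H211.HY

/-! ### Lipschitz bounds for holomorphic functions -/

theorem lip {k : ℕ} {f : (Fin k → ℂ) × ℂ → ℂ} {U K : Set ((Fin k → ℂ) × ℂ)} (hU : IsOpen U)
    (hf : DifferentiableOn ℂ f U) (hK : IsCompact K) (hc : Convex ℝ K) (hKU : K ⊆ U) :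
    ∃ L : ℝ, 0 ≤ L ∧ ∀ a ∈ K, ∀ b ∈ K, ‖f a - f b‖ ≤ L * ‖a - b‖ := by
  obtain ⟨δ, hδ, hsub⟩ := hK.exists_cthickening_subset_open hU hKU
  have hK' : IsCompact (cthickening δ K) := hK.cthickening
  obtain ⟨M, hM⟩ := hK'.exists_bound_of_continuousOn (hf.continuousOn.mono hsub)
  have hM0 : 0 ≤ |M| / δ := by positivity
  have hbd : ∀ a ∈ K, ‖fderiv ℂ f a‖ ≤ |M| / δ := by
    intro a ha
    refine ContinuousLinearMap.opNorm_le_bound _ hM0 fun v => ?_
    rcases eq_or_ne v 0 with hv | hv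
    · rw [hv, map_zero, norm_zero, norm_zero, mul_zero]
    have hv0 : 0 < ‖v‖ := norm_pos_iff.2 hv
    have hin : ∀ t : ℂ, ‖t‖ ≤ δ / ‖v‖ → a + t • v ∈ cthickening δ K := by
      intro t ht
      refine mem_cthickening_of_dist_le _ a _ _ ha ?_
      rw [dist_eq_norm, add_sub_cancel_left, norm_smul]
      calc ‖t‖ * ‖v‖ ≤ δ / ‖v‖ * ‖v‖ := mul_le_mul_of_nonneg_right ht hv0.le
        _ = δ := div_mul_cancel₀ _ hv0.ne'
    have hline : ∀ t : ℂ, HasDerivAt (fun t : ℂ => a + t • v) v t := by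
      intro t
      have h1 : HasDerivAt (fun t : ℂ => t • v) ((1 : ℂ) • v) t := (hasDerivAt_id t).smul_const v
      rw [one_smul] at h1
      exact h1.const_add a
    have hdiff : ∀ t : ℂ, ‖t‖ ≤ δ / ‖v‖ → DifferentiableAt ℂ (fun t : ℂ => f (a + t • v)) t := by
      intro t ht
      have h1 : DifferentiableAt ℂ f (a + t • v) :=
        hf.differentiableAt (hU.mem_nhds (hsub (hin t ht)))
      exact h1.comp t (hline t).differentiableAt
    have hr : 0 < δ / ‖v‖ := div_pos hδ hv0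
    have hcl : DiffContOnCl ℂ (fun t : ℂ => f (a + t • v)) (ball 0 (δ / ‖v‖)) := by
      refine DifferentiableOn.diffContOnCl fun t ht => ?_
      rw [closure_ball _ hr.ne', mem_closedBall_zero_iff] at ht
      exact (hdiff t ht).differentiableWithinAt
    have h2 := Complex.norm_deriv_le_of_forall_mem_sphere_norm_le hr hcl (C := |M|) (by
      intro t ht
      rw [mem_sphere_zero_iff_norm] at ht
      exact (hM _ (hin t ht.le)).trans (le_abs_self M))
    have h3 : deriv (fun t : ℂ => f (a + t • v)) 0 = fderiv ℂ f a v := by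
      have h4 : HasFDerivAt f (fderiv ℂ f a) (a + (0 : ℂ) • v) := by
        rw [zero_smul, add_zero]
        exact (hf.differentiableAt (hU.mem_nhds (hKU ha))).hasFDerivAt
      exact (h4.comp_hasDerivAt (0 : ℂ) (hline 0)).deriv
    rw [h3] at h2
    refine h2.trans (le_of_eq ?_)
    field_simp
  refine ⟨|M| / δ, hM0, fun a ha b hb => ?_⟩
  exact hc.norm_image_sub_le_of_norm_fderiv_le (𝕜 := ℂ)
    (fun x hx => hf.differentiableAt (hU.mem_nhds (hKU hx))) hbd hb ha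

/-- uniform constants for finitely many monotone conditions -/
theorem unif {ι : Type} [Fintype ι] {P : ι → ℝ → Prop} (hm : ∀ i a b, a ≤ b → P i a → P i b)
    (h : ∀ i, ∃ L, P i L) : ∃ L : ℝ, 0 ≤ L ∧ ∀ i, P i L := by
  choose L hL using h
  refine ⟨∑ i, |L i|, Finset.sum_nonneg fun i _ => abs_nonneg _, fun i => ?_⟩
  exact hm i _ _ ((le_abs_self _).trans
    (Finset.single_le_sum (f := fun i => |L i|) (fun i _ => abs_nonneg _) (Finset.mem_univ i))) (hL i)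

/-! ### Products of numbers near one -/

/-- closeness to one -/
def Q (t : ℝ) (n : ℕ) (z : ℂ) : Prop := ‖z - 1‖ ≤ (1 + t) ^ n - 1

theorem Q_one {t : ℝ} {z : ℂ} (h : ‖z - 1‖ ≤ t) : Q t 1 z := by
  unfold Q
  rw [pow_one]
  linarith

theorem Q_zero (t : ℝ) : Q t 0 1 := by
  unfold Q
  simp

theorem Q_mul {t : ℝ} (_ht : 0 ≤ t) {a b : ℕ} {z w : ℂ} (hz : Q t a z) (hw : Q t b w) :
    Q t (a + b) (z * w) := by
  unfold Q at *
  have h1 : z * w - 1 = (z - 1) * (w - 1) + (z - 1) + (w - 1) := by ring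
  have ha : 0 ≤ (1 + t) ^ a - 1 := (norm_nonneg _).trans hz
  rw [h1]
  calc ‖(z - 1) * (w - 1) + (z - 1) + (w - 1)‖ ≤ ‖z - 1‖ * ‖w - 1‖ + ‖z - 1‖ + ‖w - 1‖ := by
        refine (norm_add_le _ _).trans (add_le_add_left ?_ _)
        refine (norm_add_le _ _).trans (add_le_add_left ?_ _)
        rw [norm_mul]
    _ ≤ ((1 + t) ^ a - 1) * ((1 + t) ^ b - 1) + ((1 + t) ^ a - 1) + ((1 + t) ^ b - 1) := by
        gcongr
    _ = (1 + t) ^ (a + b) - 1 := by rw [pow_add]; ring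

theorem Q_pow {t : ℝ} (ht : 0 ≤ t) {z : ℂ} (hz : Q t 1 z) (n : ℕ) : Q t n (z ^ n) := by
  induction n with
  | zero => rw [pow_zero]; exact Q_zero t
  | succ n ih => rw [pow_succ]; exact Q_mul ht ih hz

theorem Q_prod {t : ℝ} (ht : 0 ≤ t) {ι : Type} (s : Finset ι) (R : ι → ℂ) (n : ι → ℕ)
    (h : ∀ i ∈ s, Q t 1 (R i)) : Q t (∑ i ∈ s, n i) (∏ i ∈ s, R i ^ n i) := by
  classical
  induction s using Finset.induction_on with
  | empty => rw [Finset.sum_empty, Finset.prod_empty]; exact Q_zero t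
  | insert a s ha ih =>
    rw [Finset.sum_insert ha, Finset.prod_insert ha]
    exact Q_mul ht (Q_pow ht (h a (Finset.mem_insert_self _ _)) _)
      (ih fun i hi => h i (Finset.mem_insert_of_mem hi))

theorem Q_bd {t : ℝ} (ht : 0 ≤ t) (ht1 : t ≤ 1) {n : ℕ} {z : ℂ} (h : Q t n z) :
    ‖z - 1‖ ≤ 2 ^ n * t := by
  have h1 : ∀ n : ℕ, (1 + t) ^ n - 1 ≤ (2 ^ n - 1) * t := by
    intro n
    induction n with
    | zero => simp
    | succ n ih =>
      have h2 : (1 + t) ^ n ≤ 2 ^ n := pow_le_pow_left₀ (by linarith) (by linarith) n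
      have h3 : t * (1 + t) ^ n ≤ t * 2 ^ n := mul_le_mul_of_nonneg_left h2 ht
      have e1 : (1 + t) ^ (n + 1) - 1 = ((1 + t) ^ n - 1) + t * (1 + t) ^ n := by ring
      have e2 : ((2 : ℝ) ^ (n + 1) - 1) * t = (2 ^ n - 1) * t + t * 2 ^ n := by ring
      rw [e1, e2]
      linarith
  have h2 := h1 n
  unfold Q at h
  nlinarith

/-! ### Geometry -/

theorem iot_ne (τ : Bool) (w : ℂ) : iot τ w ≠ 0 := by
  cases τ
  · intro h
    have := congrArg Prod.fst h
    simp [iot] at this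
  · intro h
    have := congrArg Prod.snd h
    simp [iot] at this

theorem N2_pos {p : ℂ × ℂ} (h : p ≠ 0) : 0 < N2 p := by
  unfold N2
  by_contra hc
  push Not at hc
  have h1 : ‖p.1‖ ^ 2 = 0 := by nlinarith [sq_nonneg ‖p.1‖, sq_nonneg ‖p.2‖]
  have h2 : ‖p.2‖ ^ 2 = 0 := by nlinarith [sq_nonneg ‖p.1‖, sq_nonneg ‖p.2‖]
  apply h
  refine Prod.ext ?_ ?_
  · exact norm_eq_zero.1 (pow_eq_zero_iff (two_ne_zero)|>.1 h1)
  · exact norm_eq_zero.1 (pow_eq_zero_iff (two_ne_zero)|>.1 h2)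

theorem dn_ne {p : ℂ × ℂ} (hp : p ≠ 0) : dn (tau p) p ≠ 0 := by
  unfold dn tau
  by_cases h : ‖p.1‖ ≤ ‖p.2‖
  · rw [if_pos (by simpa using h)]
    intro h2
    rw [h2, norm_zero] at h
    exact hp (Prod.ext (norm_le_zero_iff.1 h) h2)
  · rw [if_neg (by simpa using h)]
    intro h1
    rw [h1, norm_zero] at h
    exact h (norm_nonneg _)

theorem eq_smul {p : ℂ × ℂ} (hp : p ≠ 0) : p = dn (tau p) p • iot (tau p) (zc p) := by
  have h := dn_ne hp
  unfold zc
  revert h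
  cases tau p
  · intro h
    simp only [dn, iot, lc, Bool.false_eq_true, if_false] at h ⊢
    refine Prod.ext ?_ ?_
    · simp
    · simp only [Prod.smul_snd, smul_eq_mul]
      field_simp
  · intro h
    simp only [dn, iot, lc, if_true] at h ⊢
    refine Prod.ext ?_ ?_
    · simp only [Prod.smul_fst, smul_eq_mul]
      field_simp
    · simp

theorem zc_le {p : ℂ × ℂ} : ‖zc p‖ ≤ 1 := by
  unfold zc lc tau
  by_cases h : ‖p.1‖ ≤ ‖p.2‖
  · rw [if_pos (by simpa using h), norm_div]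
    exact div_le_one_of_le₀ h (norm_nonneg _)
  · rw [if_neg (by simpa using h), norm_div]
    push Not at h
    exact div_le_one_of_le₀ h.le (norm_nonneg _)

theorem N2_smul (a : ℂ) (p : ℂ × ℂ) : N2 (a • p) = ‖a‖ ^ 2 * N2 p := by
  unfold N2
  simp only [Prod.smul_fst, Prod.smul_snd, smul_eq_mul, norm_mul]
  ring

theorem N2_iot (τ : Bool) (w : ℂ) : N2 (iot τ w) = 1 + ‖w‖ ^ 2 := by
  cases τ <;> simp [N2, iot, add_comm]

theorem cr_eq_cho {p : ℂ × ℂ} (hp : p ≠ 0) {q : ℂ × ℂ} (hq : q ≠ 0) :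
    ‖cr (iot (tau p) (zc p)) q‖ = cho p q * Real.sqrt ((1 + ‖zc p‖ ^ 2) * N2 q) := by
  have h1 := eq_smul hp
  have ha : 0 < ‖dn (tau p) p‖ := norm_pos_iff.2 (dn_ne hp)
  have hN : 0 < (1 + ‖zc p‖ ^ 2) * N2 q := mul_pos (by positivity) (N2_pos hq)
  have h2 : cho p q = ‖cr (iot (tau p) (zc p)) q‖ / Real.sqrt ((1 + ‖zc p‖ ^ 2) * N2 q) := by
    unfold cho
    have e1 : ‖cr p q‖ = ‖dn (tau p) p‖ * ‖cr (iot (tau p) (zc p)) q‖ := by
      conv_lhs => rw [h1]
      rw [cr_smul_left, norm_mul]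
    have e2 : N2 p = ‖dn (tau p) p‖ ^ 2 * (1 + ‖zc p‖ ^ 2) := by
      conv_lhs => rw [h1]
      rw [N2_smul, N2_iot]
    rw [e1, e2, mul_assoc, Real.sqrt_mul (by positivity), Real.sqrt_sq ha.le,
      mul_div_mul_left _ _ ha.ne']
  rw [h2, div_mul_cancel₀ _ (Real.sqrt_pos.2 hN).ne']

theorem cho_le_one (p q : ℂ × ℂ) : cho p q ≤ 1 := by
  unfold cho
  refine div_le_one_of_le₀ ?_ (Real.sqrt_nonneg _)
  refine Real.le_sqrt_of_sq_le ?_
  have h1 : ‖cr p q‖ ≤ ‖p.1‖ * ‖q.2‖ + ‖p.2‖ * ‖q.1‖ := by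
    unfold cr
    refine (norm_sub_le _ _).trans ?_
    rw [norm_mul, norm_mul]
  have h2 : ‖cr p q‖ ^ 2 ≤ (‖p.1‖ * ‖q.2‖ + ‖p.2‖ * ‖q.1‖) ^ 2 :=
    pow_le_pow_left₀ (norm_nonneg _) h1 2
  unfold N2
  nlinarith [sq_nonneg (‖p.1‖ * ‖q.1‖ - ‖p.2‖ * ‖q.2‖)]

theorem cho_nonneg (p q : ℂ × ℂ) : 0 ≤ cho p q := by
  unfold cho
  positivity

theorem pt_ne (c : ℂ) : ((c, 1) : ℂ × ℂ) ≠ 0 := by
  intro h
  have := congrArg Prod.snd h
  simp at this

theorem wr_iot {d k : ℕ} (x : CV d) (hd : 2 ≤ d) (c : Fin k → ℂ) (m : Fin k → ℕ)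
    (hdeg : ∑ i, m i = 2 * d - 2)
    (hf : ∀ ζ, wr x (ζ, 1) = wr x (1, 0) * ∏ i, (ζ - c i) ^ m i) (τ : Bool) (w : ℂ) :
    wr x (iot τ w) = wr x (1, 0) * ∏ i, cr (iot τ w) (c i, 1) ^ m i := by
  cases τ
  · have e0 : iot false w = (1, w) := rfl
    have e1 : ∀ i, cr (1, w) (c i, 1) = 1 - w * c i := by
      intro i
      simp [cr]
    rw [e0]
    simp only [e1]
    rcases eq_or_ne w 0 with hw | hw
    · rw [hw]
      simp
    · have e2 : ((1, w) : ℂ × ℂ) = w • (w⁻¹, 1) := by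
        refine Prod.ext ?_ ?_
        · simp [hw]
        · simp
      rw [e2, (WR d x hd).1 w (w⁻¹, 1), hf, ← hdeg, mul_left_comm]
      congr 1
      rw [← Finset.prod_pow_eq_pow_sum, ← Finset.prod_mul_distrib]
      refine Finset.prod_congr rfl fun i _ => ?_
      rw [← mul_pow]
      congr 1
      field_simp
  · have e0 : iot true w = (w, 1) := rfl
    rw [e0, hf]
    congr 1
    refine Finset.prod_congr rfl fun i _ => ?_
    simp [cr]

/-! ### The factors -/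

section
variable {d k : ℕ}

/-- the denominator -/
noncomputable def EE (X : (Fin k → ℂ) → CV d) (τ τ' : Bool) (q : (Fin k → ℂ) × ℂ) : ℂ :=
  dn τ' (hF (X q.1) (iot τ q.2))

/-- the factors belonging to the critical points -/
noncomputable def FF (c : Fin k → (Fin k → ℂ) → ℂ) (τ : Bool) (i : Fin k)
    (q : (Fin k → ℂ) × ℂ) : ℂ := cr (iot τ q.2) (c i q.1, 1)

/-- the leading coefficient -/
noncomputable def WW (X : (Fin k → ℂ) → CV d) (q : (Fin k → ℂ) × ℂ) : ℂ := wr (X q.1) (1, 0)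

variable {X : (Fin k → ℂ) → CV d} {c : Fin k → (Fin k → ℂ) → ℂ} {ρ : ℝ}

theorem dif_iot (τ : Bool) : Differentiable ℂ (fun q : (Fin k → ℂ) × ℂ => iot τ q.2) := by
  cases τ
  · have e : (fun q : (Fin k → ℂ) × ℂ => iot false q.2) = fun q => ((1 : ℂ), q.2) := rfl
    rw [e]
    exact (differentiable_const _).prodMk differentiable_snd
  · have e : (fun q : (Fin k → ℂ) × ℂ => iot true q.2) = fun q => (q.2, (1 : ℂ)) := rfl
    rw [e]
    exact differentiable_snd.prodMk (differentiable_const _)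

theorem dif_X (hX : DifferentiableOn ℂ X (ball 0 ρ)) :
    DifferentiableOn ℂ (fun q : (Fin k → ℂ) × ℂ => X q.1) (ball 0 ρ ×ˢ univ) :=
  hX.comp differentiableOn_fst fun _ hq => hq.1

theorem dif_h (hX : DifferentiableOn ℂ X (ball 0 ρ)) (τ : Bool) :
    DifferentiableOn ℂ (fun q : (Fin k → ℂ) × ℂ => hF (X q.1) (iot τ q.2))
      (ball 0 ρ ×ˢ univ) := by
  have h1 : Differentiable ℂ (fun q : CV d × (ℂ × ℂ) => hF q.1 q.2) :=
    (hF_contDiff d 1).differentiable (by norm_num)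
  have h2 := h1.comp_differentiableOn ((dif_X hX).prodMk (dif_iot τ).differentiableOn)
  exact h2

theorem dif_E (hX : DifferentiableOn ℂ X (ball 0 ρ)) (τ τ' : Bool) :
    DifferentiableOn ℂ (EE X τ τ') (ball 0 ρ ×ˢ univ) := by
  cases τ'
  · have h2 : DifferentiableOn ℂ (fun q : (Fin k → ℂ) × ℂ => (hF (X q.1) (iot τ q.2)).1)
        (ball 0 ρ ×ˢ univ) := (dif_h hX τ).fst
    refine h2.congr fun q _ => ?_
    unfold EE dn
    exact if_neg Bool.false_ne_true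
  · have h2 : DifferentiableOn ℂ (fun q : (Fin k → ℂ) × ℂ => (hF (X q.1) (iot τ q.2)).2)
        (ball 0 ρ ×ˢ univ) := (dif_h hX τ).snd
    refine h2.congr fun q _ => ?_
    unfold EE dn
    exact if_pos rfl

theorem dif_F (hc : ∀ i, DifferentiableOn ℂ (c i) (ball 0 ρ)) (τ : Bool) (i : Fin k) :
    DifferentiableOn ℂ (FF c τ i) (ball 0 ρ ×ˢ univ) := by
  have h1 : DifferentiableOn ℂ (fun q : (Fin k → ℂ) × ℂ => c i q.1) (ball 0 ρ ×ˢ univ) :=
    (hc i).comp differentiableOn_fst fun _ hq => hq.1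
  have h2 : DifferentiableOn ℂ (fun q : (Fin k → ℂ) × ℂ => (iot τ q.2).1) (ball 0 ρ ×ˢ univ) :=
    (differentiable_fst.comp (dif_iot τ)).differentiableOn
  have h3 : DifferentiableOn ℂ (fun q : (Fin k → ℂ) × ℂ => (iot τ q.2).2) (ball 0 ρ ×ˢ univ) :=
    (differentiable_snd.comp (dif_iot τ)).differentiableOn
  exact (h2.mul (differentiableOn_const 1)).sub (h3.mul h1)

theorem dif_W (hX : DifferentiableOn ℂ X (ball 0 ρ)) :
    DifferentiableOn ℂ (WW X) (ball 0 ρ ×ˢ univ) := by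
  have h1 : Differentiable ℂ (fun q : CV d × (ℂ × ℂ) => wr q.1 q.2) :=
    (wr_contDiff d 1).differentiable (by norm_num)
  have h2 : DifferentiableOn ℂ (fun q : (Fin k → ℂ) × ℂ => (X q.1, ((1 : ℂ), (0 : ℂ))))
      (ball 0 ρ ×ˢ univ) := (dif_X hX).prodMk (differentiableOn_const _)
  have h3 := h1.comp_differentiableOn h2
  exact h3

end

theorem N2_le {v : ℂ × ℂ} {τ : Bool} {M : ℝ} (h : dn τ v ≠ 0) (hM : ‖lc τ v‖ ≤ M) :
    N2 v ≤ (1 + M ^ 2) * ‖dn τ v‖ ^ 2 := by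
  have hp : 0 < ‖dn τ v‖ := norm_pos_iff.2 h
  have hM0 : 0 ≤ M := (norm_nonneg _).trans hM
  revert h hM hp
  cases τ
  · intro h hM hp
    simp only [dn, lc, Bool.false_eq_true, if_false, norm_div] at h hM hp ⊢
    rw [div_le_iff₀ hp] at hM
    have := pow_le_pow_left₀ (norm_nonneg _) hM 2
    unfold N2
    nlinarith
  · intro h hM hp
    simp only [dn, lc, if_true, norm_div] at h hM hp ⊢
    rw [div_le_iff₀ hp] at hM
    have := pow_le_pow_left₀ (norm_nonneg _) hM 2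
    unfold N2
    nlinarith

theorem sg_norm (τ : Bool) : ‖sg τ‖ = 1 := by
  cases τ <;> simp [sg]

theorem sg_ne (τ : Bool) : sg τ ≠ 0 := by
  cases τ <;> simp [sg]

theorem continuous_N2 : Continuous N2 := by
  unfold N2
  fun_prop

theorem t_DIST (hU : S_UNIF) (hD : S_DER) : S_DIST := by
  intro d k x₀ c₀ m X c ρ hd hnd hw0 hfac hfam
  obtain ⟨ρ1, hρ1, hρ1ρ, M, hM⟩ := hU d k x₀ X ρ hd hnd hfam.ρ0 hfam.dif hfam.at0
  have hd0 : (0 : ℝ) < (d : ℝ) := by
    have : 0 < d := by omega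
    exact_mod_cast this
  have hd1 : (1 : ℝ) ≤ (d : ℝ) := by
    have : 1 ≤ d := by omega
    exact_mod_cast this
  set r : ℝ := min (ρ1 / 2) 1 with hrdef
  have hr : 0 < r := lt_min (by linarith) one_pos
  have hrρ1 : r < ρ1 := lt_of_le_of_lt (min_le_left _ _) (by linarith)
  have hr1 : r ≤ 1 := min_le_right _ _
  have hrρ : r < ρ := lt_of_lt_of_le hrρ1 hρ1ρ
  set K0 : Set ((Fin k → ℂ) × ℂ) := closedBall (0 : Fin k → ℂ) r ×ˢ closedBall (0 : ℂ) 2 with hK0
  have hKc : IsCompact K0 := (isCompact_closedBall _ _).prod (isCompact_closedBall _ _)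
  have hKv : Convex ℝ K0 := (convex_closedBall _ _).prod (convex_closedBall _ _)
  have hKU : K0 ⊆ ball (0 : Fin k → ℂ) ρ ×ˢ univ := fun q hq =>
    ⟨closedBall_subset_ball hrρ hq.1, mem_univ _⟩
  have hUo : IsOpen (ball (0 : Fin k → ℂ) ρ ×ˢ (univ : Set ℂ)) := isOpen_ball.prod isOpen_univ
  have hKne : K0.Nonempty := ⟨(0, 0), mem_closedBall_self hr.le, mem_closedBall_self (by norm_num)⟩
  -- Lipschitz constants
  obtain ⟨LE, hLE0, hLE⟩ := unif (ι := Bool × Bool)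
    (P := fun i L => ∀ a ∈ K0, ∀ b ∈ K0, ‖EE X i.1 i.2 a - EE X i.1 i.2 b‖ ≤ L * ‖a - b‖)
    (fun i L L' hL h a ha b hb => (h a ha b hb).trans
      (mul_le_mul_of_nonneg_right hL (norm_nonneg _)))
    (fun i => by
      obtain ⟨L, -, hL⟩ := lip hUo (dif_E hfam.dif i.1 i.2) hKc hKv hKU
      exact ⟨L, hL⟩)
  obtain ⟨LF, hLF0, hLF⟩ := unif (ι := Bool × Fin k)
    (P := fun i L => ∀ a ∈ K0, ∀ b ∈ K0, ‖FF c i.1 i.2 a - FF c i.1 i.2 b‖ ≤ L * ‖a - b‖)
    (fun i L L' hL h a ha b hb => (h a ha b hb).trans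
      (mul_le_mul_of_nonneg_right hL (norm_nonneg _)))
    (fun i => by
      obtain ⟨L, -, hL⟩ := lip hUo (dif_F hfam.cdf i.1 i.2) hKc hKv hKU
      exact ⟨L, hL⟩)
  obtain ⟨LW, hLW0, hLW⟩ := lip hUo (dif_W hfam.dif) hKc hKv hKU
  -- lower bound for the norm of the image
  obtain ⟨e1, he1, hE1⟩ : ∃ e1 : ℝ, 0 < e1 ∧ ∀ τ : Bool, ∀ q ∈ K0,
      e1 ≤ N2 (hF (X q.1) (iot τ q.2)) := by
    have h1 : ∀ τ : Bool, ∃ e1 : ℝ, 0 < e1 ∧ ∀ q ∈ K0, e1 ≤ N2 (hF (X q.1) (iot τ q.2)) := by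
      intro τ
      have hco : ContinuousOn (fun q : (Fin k → ℂ) × ℂ => N2 (hF (X q.1) (iot τ q.2))) K0 :=
        continuous_N2.comp_continuousOn ((dif_h hfam.dif τ).continuousOn.mono hKU)
      obtain ⟨q0, hq0, hmin⟩ := hKc.exists_isMinOn hKne hco
      refine ⟨_, ?_, fun q hq => hmin hq⟩
      refine N2_pos fun h => iot_ne τ q0.2 ?_
      exact hfam.nd q0.1 (hKU hq0).1 _ h
    obtain ⟨a, ha, ha'⟩ := h1 true
    obtain ⟨b, hb, hb'⟩ := h1 false
    refine ⟨min a b, lt_min ha hb, fun τ q hq => ?_⟩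
    cases τ
    · exact (min_le_right _ _).trans (hb' q hq)
    · exact (min_le_left _ _).trans (ha' q hq)
  have hM1 : (0 : ℝ) < 1 + M ^ 2 := by positivity
  set e0 : ℝ := Real.sqrt (e1 / (1 + M ^ 2)) with he0def
  have he0 : 0 < e0 := Real.sqrt_pos.2 (div_pos he1 hM1)
  have hmemK : ∀ p : ℂ × ℂ, ∀ s ∈ ball (0 : Fin k → ℂ) r, ∀ w ∈ ball (zc p) r, (s, w) ∈ K0 := by
    intro p s hs w hw
    refine ⟨ball_subset_closedBall hs, ?_⟩
    rw [mem_closedBall_zero_iff]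
    rw [mem_ball, dist_eq_norm] at hw
    calc ‖w‖ = ‖(w - zc p) + zc p‖ := by rw [sub_add_cancel]
      _ ≤ ‖w - zc p‖ + ‖zc p‖ := norm_add_le _ _
      _ ≤ 2 := by linarith [zc_le (p := p)]
  have hElow : ∀ p : ℂ × ℂ, p ≠ 0 → ∀ s ∈ ball (0 : Fin k → ℂ) r, ∀ w ∈ ball (zc p) r,
      e0 ≤ ‖EE X (tau p) (tau (hF x₀ p)) (s, w)‖ := by
    intro p hp s hs w hw
    obtain ⟨h1, -, h3, -⟩ := hM p hp s (ball_subset_ball hrρ1.le hs) w (ball_subset_ball hrρ1.le hw)
    have h4 := N2_le (M := M) h1 h3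
    have h5 := hE1 (tau p) (s, w) (hmemK p s hs w hw)
    have h6 : e1 / (1 + M ^ 2) ≤ ‖EE X (tau p) (tau (hF x₀ p)) (s, w)‖ ^ 2 := by
      rw [div_le_iff₀ hM1, mul_comm]
      exact h5.trans h4
    rw [he0def]
    exact (Real.sqrt_le_sqrt h6).trans (le_of_eq (Real.sqrt_sq (norm_nonneg _)))
  -- upper bound for the factors
  set Bi : Fin k → ℝ := fun i => Real.sqrt (2 * N2 (c₀ i, 1)) with hBi
  set B : ℝ := 1 + ∑ i, Bi i with hB
  have hBi0 : ∀ i, 0 ≤ Bi i := fun i => Real.sqrt_nonneg _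
  have hB1 : 1 ≤ B := by
    have : 0 ≤ ∑ i, Bi i := Finset.sum_nonneg fun i _ => hBi0 i
    linarith
  have hBiB : ∀ i, Bi i ≤ B := by
    intro i
    have := Finset.single_le_sum (f := Bi) (fun i _ => hBi0 i) (Finset.mem_univ i)
    linarith
  set w0 : ℝ := ‖wr x₀ (1, 0)‖ with hw0def
  have hw0p : 0 < w0 := norm_pos_iff.2 hw0
  set Bt : ℝ := LW / w0 + LE / e0 + LF with hBt
  have hBt0 : 0 ≤ Bt := by positivity
  set A1 : ℝ := w0 * B ^ (2 * d - 2) / e0 ^ 2 with hA1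
  have hA10 : 0 ≤ A1 := by positivity
  set KK : ℝ := 2 ^ (2 * d + 1) * Bt + Bt + A1 + 1 with hKK
  have hpow : (0 : ℝ) ≤ 2 ^ (2 * d + 1) * Bt := by positivity
  have hKK1 : 1 ≤ KK := by linarith
  have hKK0 : 0 < KK := by linarith
  refine ⟨r, hr, KK, hKK1, ?_⟩
  intro p xx hp hxx hcho1 hcho2
  set τ := tau p with hτ
  set τ' := tau (hF x₀ p) with hτ'
  set z := zc p with hz
  have hxx1 : xx ≤ 1 := by
    obtain ⟨i, -⟩ := hcho2
    exact (hcho1 i).trans (cho_le_one _ _)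
  have hz0 : (0 : Fin k → ℂ) ∈ ball (0 : Fin k → ℂ) r := mem_ball_self hr
  have hzz : z ∈ ball z r := mem_ball_self hr
  have hX0 : X 0 = x₀ := hfam.at0
  -- the factors at the centre
  have hF0 : ∀ i, ‖FF c τ i (0, z)‖ = cho p (c₀ i, 1) * Real.sqrt ((1 + ‖z‖ ^ 2) * N2 (c₀ i, 1)) := by
    intro i
    have h1 : FF c τ i (0, z) = cr (iot τ z) (c₀ i, 1) := by
      unfold FF
      rw [hfam.c0 i]
    rw [h1]
    exact cr_eq_cho hp (pt_ne _)
  have hN2c : ∀ i, 1 ≤ N2 (c₀ i, 1) := by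
    intro i
    unfold N2
    simp only [norm_one, one_pow]
    nlinarith [sq_nonneg ‖c₀ i‖]
  have hFlow : ∀ i, xx ≤ ‖FF c τ i (0, z)‖ := by
    intro i
    rw [hF0 i]
    have h1 : 1 ≤ Real.sqrt ((1 + ‖z‖ ^ 2) * N2 (c₀ i, 1)) := by
      rw [Real.one_le_sqrt]
      nlinarith [hN2c i, sq_nonneg ‖z‖]
    have h2 := hcho1 i
    have h3 : 0 ≤ cho p (c₀ i, 1) := cho_nonneg _ _
    nlinarith
  have hFup : ∀ i, ‖FF c τ i (0, z)‖ ≤ B * cho p (c₀ i, 1) := by
    intro i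
    rw [hF0 i, mul_comm B]
    refine mul_le_mul_of_nonneg_left ?_ (cho_nonneg _ _)
    refine le_trans ?_ (hBiB i)
    refine Real.sqrt_le_sqrt (mul_le_mul_of_nonneg_right ?_ (by linarith [hN2c i]))
    have h1 : ‖z‖ ≤ 1 := zc_le
    nlinarith [norm_nonneg z]
  have hFne : ∀ i, FF c τ i (0, z) ≠ 0 := fun i h => by
    have := hFlow i
    rw [h, norm_zero] at this
    linarith
  have hEne : ∀ s ∈ ball (0 : Fin k → ℂ) r, ∀ w ∈ ball z r, EE X τ τ' (s, w) ≠ 0 := by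
    intro s hs w hw h
    have := hElow p hp s hs w hw
    rw [h, norm_zero] at this
    linarith
  -- the derivative
  have hder : ∀ s ∈ ball (0 : Fin k → ℂ) r, ∀ w ∈ ball z r, deriv (GG (X s) τ τ') w =
      sg τ * sg τ' * (WW X (s, w) * ∏ i, FF c τ i (s, w) ^ m i) /
        ((d : ℂ) * EE X τ τ' (s, w) ^ 2) := by
    intro s hs w hw
    have h1 := ((hD d k τ τ' w hd).1 (X s) (hEne s hs w hw)).deriv
    rw [h1]
    have hsρ : s ∈ ball (0 : Fin k → ℂ) ρ := ball_subset_ball hrρ.le hs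
    rw [wr_iot (X s) hd (fun i => c i s) m hfac.deg (hfam.fac s hsρ) τ w]
    rfl
  have hder0 : deriv (GG x₀ τ τ') z = sg τ * sg τ' * (WW X (0, z) * ∏ i, FF c τ i (0, z) ^ m i) /
        ((d : ℂ) * EE X τ τ' (0, z) ^ 2) := by
    rw [← hder 0 hz0 z hzz, hX0]
  have hWne : WW X (0, z) ≠ 0 := by
    unfold WW
    rw [hX0]
    exact hw0
  have hdC : (d : ℂ) ≠ 0 := by
    have : d ≠ 0 := by omega
    exact_mod_cast this
  have hPne : ∏ i, FF c τ i (0, z) ^ m i ≠ 0 :=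
    Finset.prod_ne_zero_iff.2 fun i _ => pow_ne_zero _ (hFne i)
  have hE0ne := hEne 0 hz0 z hzz
  refine ⟨?_, ?_, ?_⟩
  · -- upper bound
    rw [hder0, norm_div, norm_mul, norm_mul, norm_mul, norm_mul, sg_norm, sg_norm, norm_pow,
      one_mul, one_mul, norm_prod]
    have h1 : ‖WW X (0, z)‖ = w0 := by
      unfold WW
      rw [hX0]
    have h2 : ∏ i, ‖FF c τ i (0, z) ^ m i‖ ≤ B ^ (2 * d - 2) * xx := by
      obtain ⟨i0, hi0⟩ := hcho2
      have h3 : ∀ i, ‖FF c τ i (0, z) ^ m i‖ ≤ B ^ m i := by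
        intro i
        rw [norm_pow]
        refine pow_le_pow_left₀ (norm_nonneg _) ((hFup i).trans ?_) _
        have := cho_le_one p (c₀ i, 1)
        nlinarith
      have h4 : ‖FF c τ i0 (0, z) ^ m i0‖ ≤ B ^ m i0 * xx := by
        rw [norm_pow]
        calc ‖FF c τ i0 (0, z)‖ ^ m i0 ≤ (B * xx) ^ m i0 := by
              refine pow_le_pow_left₀ (norm_nonneg _) ((hFup i0).trans ?_) _
              exact mul_le_mul_of_nonneg_left hi0 (by linarith)
          _ = B ^ m i0 * xx ^ m i0 := mul_pow _ _ _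
          _ ≤ B ^ m i0 * xx := by
              refine mul_le_mul_of_nonneg_left ?_ (by positivity)
              exact pow_le_of_le_one hxx.le hxx1 (by have := hfac.pos i0; omega)
      rw [← hfac.deg, ← Finset.prod_pow_eq_pow_sum, ← Finset.mul_prod_erase _ _ (Finset.mem_univ i0),
        ← Finset.mul_prod_erase Finset.univ (fun i => B ^ m i) (Finset.mem_univ i0),
        mul_right_comm]
      refine mul_le_mul h4 (Finset.prod_le_prod (fun i _ => norm_nonneg _) fun i _ => h3 i)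
        (Finset.prod_nonneg fun i _ => norm_nonneg _) (by positivity)
    have h5 : e0 ^ 2 ≤ ‖(d : ℂ)‖ * ‖EE X τ τ' (0, z)‖ ^ 2 := by
      have h6 := hElow p hp 0 hz0 z hzz
      have h7 : e0 ^ 2 ≤ ‖EE X τ τ' (0, z)‖ ^ 2 := pow_le_pow_left₀ he0.le h6 2
      have h8 : ‖(d : ℂ)‖ = (d : ℝ) := by
        rw [Complex.norm_natCast]
      rw [h8]
      nlinarith [sq_nonneg ‖EE X τ τ' (0, z)‖]
    rw [h1]
    calc (w0 * ∏ i, ‖FF c τ i (0, z) ^ m i‖) / (‖(d : ℂ)‖ * ‖EE X τ τ' (0, z)‖ ^ 2)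
        ≤ w0 * (B ^ (2 * d - 2) * xx) / e0 ^ 2 := by
          refine div_le_div₀ (by positivity) ?_ (by positivity) h5
          exact mul_le_mul_of_nonneg_left h2 hw0p.le
      _ = A1 * xx := by rw [hA1]; ring
      _ ≤ KK * xx := mul_le_mul_of_nonneg_right (by linarith) hxx.le
  · rw [hder0]
    exact div_ne_zero (mul_ne_zero (mul_ne_zero (sg_ne _) (sg_ne _)) (mul_ne_zero hWne hPne))
      (mul_ne_zero hdC (pow_ne_zero _ hE0ne))
  · intro s hs w hw hh
    set h : ℝ := ‖s‖ + ‖w - z‖ with hhdef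
    have hh0 : 0 ≤ h := by positivity
    have hdist : ‖((s, w) : (Fin k → ℂ) × ℂ) - (0, z)‖ ≤ h := by
      rw [Prod.norm_def]
      refine max_le ?_ ?_
      · change ‖s - 0‖ ≤ h
        rw [sub_zero]
        linarith [norm_nonneg (w - z)]
      · change ‖w - z‖ ≤ h
        linarith [norm_nonneg s]
    have hm1 := hmemK p s hs w hw
    have hm0 := hmemK p 0 hz0 z hzz
    set t : ℝ := Bt * (h / xx) with htdef
    have ht0 : 0 ≤ t := by positivity
    have hhx : h / xx ≤ 1 / KK := by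
      rw [div_le_div_iff₀ hxx hKK0]
      rw [le_div_iff₀ hKK0] at hh
      linarith
    have ht1 : t ≤ 1 := by
      calc t ≤ Bt * (1 / KK) := mul_le_mul_of_nonneg_left hhx hBt0
        _ ≤ 1 := by
          rw [mul_one_div, div_le_one hKK0]
          linarith
    have hhxx : h ≤ h / xx := by
      rw [le_div_iff₀ hxx]
      nlinarith
    have hE1ne := hEne s hs w hw
    have hQW : Q t 1 (WW X (s, w) / WW X (0, z)) := by
      refine Q_one ?_
      rw [div_sub_one hWne, norm_div]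
      have h1 : ‖WW X (0, z)‖ = w0 := by
        unfold WW
        rw [hX0]
      rw [h1, div_le_iff₀ hw0p]
      calc ‖WW X (s, w) - WW X (0, z)‖ ≤ LW * h :=
            (hLW _ hm1 _ hm0).trans (mul_le_mul_of_nonneg_left hdist hLW0)
        _ ≤ LW * (h / xx) := mul_le_mul_of_nonneg_left hhxx hLW0
        _ = LW / w0 * (h / xx) * w0 := by field_simp
        _ ≤ t * w0 := by
            refine mul_le_mul_of_nonneg_right (mul_le_mul_of_nonneg_right ?_ (by positivity)) hw0p.le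
            have : 0 ≤ LE / e0 := by positivity
            linarith
    have hQE : Q t 1 (EE X τ τ' (0, z) / EE X τ τ' (s, w)) := by
      refine Q_one ?_
      rw [div_sub_one hE1ne, norm_div, div_le_iff₀ (norm_pos_iff.2 hE1ne)]
      calc ‖EE X τ τ' (0, z) - EE X τ τ' (s, w)‖ ≤ LE * h := by
            rw [norm_sub_rev]
            exact (hLE (τ, τ') _ hm1 _ hm0).trans (mul_le_mul_of_nonneg_left hdist hLE0)
        _ ≤ LE * (h / xx) := mul_le_mul_of_nonneg_left hhxx hLE0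
        _ = LE / e0 * (h / xx) * e0 := by field_simp
        _ ≤ t * ‖EE X τ τ' (s, w)‖ := by
            refine mul_le_mul (mul_le_mul_of_nonneg_right ?_ (by positivity))
              (hElow p hp s hs w hw) he0.le ht0
            have : 0 ≤ LW / w0 := by positivity
            linarith
    have hQF : ∀ i, Q t 1 (FF c τ i (s, w) / FF c τ i (0, z)) := by
      intro i
      refine Q_one ?_
      rw [div_sub_one (hFne i), norm_div, div_le_iff₀ (norm_pos_iff.2 (hFne i))]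
      calc ‖FF c τ i (s, w) - FF c τ i (0, z)‖ ≤ LF * h :=
            (hLF (τ, i) _ hm1 _ hm0).trans (mul_le_mul_of_nonneg_left hdist hLF0)
        _ = LF * (h / xx) * xx := by field_simp
        _ ≤ t * ‖FF c τ i (0, z)‖ := by
            refine mul_le_mul (mul_le_mul_of_nonneg_right ?_ (by positivity)) (hFlow i) hxx.le ht0
            have h1 : 0 ≤ LW / w0 := by positivity
            have h2 : 0 ≤ LE / e0 := by positivity
            linarith
    have hQ : Q t (1 + (2 + (2 * d - 2))) (WW X (s, w) / WW X (0, z) *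
        ((EE X τ τ' (0, z) / EE X τ τ' (s, w)) ^ 2 *
          ∏ i, (FF c τ i (s, w) / FF c τ i (0, z)) ^ m i)) := by
      refine Q_mul ht0 hQW (Q_mul ht0 (Q_pow ht0 hQE 2) ?_)
      rw [← hfac.deg]
      exact Q_prod ht0 _ _ _ fun i _ => hQF i
    have hbd := Q_bd ht0 ht1 hQ
    have hprod : ∏ i, (FF c τ i (s, w) / FF c τ i (0, z)) ^ m i =
        (∏ i, FF c τ i (s, w) ^ m i) / ∏ i, FF c τ i (0, z) ^ m i := by
      rw [← Finset.prod_div_distrib]
      exact Finset.prod_congr rfl fun i _ => div_pow _ _ _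
    have hrat : deriv (GG (X s) τ τ') w = deriv (GG x₀ τ τ') z * (WW X (s, w) / WW X (0, z) *
        ((EE X τ τ' (0, z) / EE X τ τ' (s, w)) ^ 2 *
          ∏ i, (FF c τ i (s, w) / FF c τ i (0, z)) ^ m i)) := by
      rw [hder s hs w hw, hder0, hprod]
      field_simp
    have hsub : deriv (GG (X s) τ τ') w - deriv (GG x₀ τ τ') z = deriv (GG x₀ τ τ') z *
        (WW X (s, w) / WW X (0, z) * ((EE X τ τ' (0, z) / EE X τ τ' (s, w)) ^ 2 *
          ∏ i, (FF c τ i (s, w) / FF c τ i (0, z)) ^ m i) - 1) := by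
      rw [hrat]
      ring
    rw [hsub, norm_mul]
    have hexp : 1 + (2 + (2 * d - 2)) = 2 * d + 1 := by omega
    rw [hexp] at hbd
    calc ‖deriv (GG x₀ τ τ') z‖ * ‖WW X (s, w) / WW X (0, z) *
          ((EE X τ τ' (0, z) / EE X τ τ' (s, w)) ^ 2 *
          ∏ i, (FF c τ i (s, w) / FF c τ i (0, z)) ^ m i) - 1‖
        ≤ ‖deriv (GG x₀ τ τ') z‖ * (2 ^ (2 * d + 1) * t) :=
          mul_le_mul_of_nonneg_left hbd (norm_nonneg _)
      _ = (2 ^ (2 * d + 1) * Bt) * (‖deriv (GG x₀ τ τ') z‖ * (h / xx)) := by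
          rw [htdef]; ring
      _ ≤ KK * (‖deriv (GG x₀ τ τ') z‖ * (h / xx)) :=
          mul_le_mul_of_nonneg_right (by linarith) (by positivity)
      _ = KK * ‖deriv (GG x₀ τ τ') z‖ * (h / xx) := by ring

end Pool.Agent.H295.HY211
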